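import Pool.Agent.helper84.QI.Spec

/-! Row qi:FNK (helper50): the factor is not contained in `K`. -/

set_option autoImplicit false

namespace Pool.Agent.QI

theorem FNK_quot {M : Type} [Group M] {A K : Subgroup M} (hA : A.Normal) (hK : K.Normal) (h : A ⊔ K = ⊤) (x : M) :
    ∃ a ∈ A, (QuotientGroup.mk x : M ⧸ K) = QuotientGroup.mk a := by
  have hx : x ∈ A ⊔ K := by
    rw [h]
    exact Subgroup.mem_top x
  obtain ⟨a, ha, k, hk, hak⟩ := Subgroup.mem_sup_of_normal_right.1 hx
  refine ⟨a, ha, ?_⟩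
  rw [← hak, eq_comm, QuotientGroup.eq]
  have : a⁻¹ * (a * k) = k := by group
  rw [this]
  exact hk

theorem FNK_step {M : Type} [Group M] {A B K : Subgroup M} (hA : A.Normal) (hB : B.Normal) (hK : K.Normal)
    (h1 : A ⊔ K = ⊤) (h2 : B ⊔ K = ⊤) (h : A ⊓ B ≤ K) (x y : M) : x * y * x⁻¹ * y⁻¹ ∈ K := by
  obtain ⟨a, ha, hxa⟩ := FNK_quot hA hK h1 x
  obtain ⟨b, hb, hyb⟩ := FNK_quot hB hK h2 y
  have h3 : a * b * a⁻¹ * b⁻¹ ∈ K := by
    apply h
    refine Subgroup.mem_inf.2 ⟨?_, ?_⟩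
    · have : a * b * a⁻¹ * b⁻¹ = a * (b * a⁻¹ * b⁻¹) := by group
      rw [this]
      exact A.mul_mem ha (hA.conj_mem _ (A.inv_mem ha) b)
    · exact B.mul_mem (hB.conj_mem _ hb a) (B.inv_mem hb)
  rw [← QuotientGroup.eq_one_iff] at h3 ⊢
  rw [← h3]
  simp only [QuotientGroup.mk_mul, QuotientGroup.mk_inv]
  rw [hxa, hyb]

theorem FNK : FNK_stmt := by
  intro M _ S hS K hK hle
  have hKn := hS.nor K hK
  have key : ∀ T : Set (Subgroup M), T.Finite → T ⊆ S \ {K} → ¬ sInf T ≤ K := by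
    intro T hT
    refine Set.Finite.induction_on T hT ?_ ?_
    · intro _ h
      rw [sInf_empty] at h
      exact hS.top K hK (top_le_iff.1 h)
    · intro A T' hA' _ ih hsub h
      have hAS : A ∈ S \ {K} := hsub (Set.mem_insert A T')
      have hT' : T' ⊆ S \ {K} := fun L hL => hsub (Set.mem_insert_of_mem A hL)
      have hBK := ih hT'
      have hAn := hS.nor A hAS.1
      have hBn : (sInf T').Normal := by
        refine ⟨fun n hn g => ?_⟩
        rw [Subgroup.mem_sInf] at hn ⊢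
        intro L hL
        exact (hS.nor L (hT' hL).1).conj_mem n (hn L hL) g
      have hAK : ¬ A ≤ K := by
        intro h1
        rcases hS.max A hAS.1 K hKn h1 with h2 | h2
        · exact hAS.2 (by rw [← h2]; exact rfl)
        · exact hS.top K hK h2
      have hsup : ∀ L : Subgroup M, L.Normal → ¬ L ≤ K → L ⊔ K = ⊤ := by
        intro L hL hLK
        have hn : (L ⊔ K).Normal := Subgroup.sup_normal L K
        rcases hS.max K hK (L ⊔ K) hn le_sup_right with h2 | h2
        · exact absurd (h2 ▸ le_sup_left) hLK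
        · exact h2
      rw [sInf_insert] at h
      obtain ⟨x, y, hxy⟩ := hS.nab K hK
      exact hxy (FNK_step hAn hBn hKn (hsup A hAn hAK) (hsup _ hBn hBK) h x y)
  exact key (S \ {K}) (hS.fin.subset Set.sdiff_subset) (le_refl _) hle

end Pool.Agent.QI
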